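import Pool.Agent.V11296.UB3

/-!
# The two-point correlation sums of the Liouville function exceed any bound for almost all shifts

For every bound `C` the sums `S_h(X) = ∑_{n ≤ X} λ(n) λ(n + h)` exceed `C` in absolute value for a positive proportion of the
`X ≤ δ h`, for all shifts `h` outside a set of logarithmic density `0`.
-/

set_option autoImplicit false

namespace Pool.Agent.Results.MP_27c4f6_nt.UnboundedForAlmostAllShifts

open Finset Filter Topology

/-- The Liouville function. -/
def lam (n : ℕ) : ℤ := (-1) ^ ArithmeticFunction.cardFactors n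

/-- The sum `S_h(X)` of `λ(n) λ(n + h)` over `1 ≤ n ≤ X`. -/
def S (h X : ℕ) : ℤ := ∑ n ∈ Icc 1 X, lam n * lam (n + h)

open Classical in
/-- The sum of `1 / h` over the elements `h ≤ Y` of `B`. -/
noncomputable def logCount (B : Set ℕ) (Y : ℕ) : ℝ := ∑ h ∈ (Icc 1 Y).filter (fun h => h ∈ B), (1 : ℝ) / h

open Classical in
/-- The shifts `h` for which at most `δ h / (512 (C² + 1))` of the integers `0 ≤ X ≤ δ h` satisfy `|S_h(X)| > C`. -/
def fewLarge (C δ : ℝ) : Set ℕ :=
  {h | (((range (⌊δ * h⌋₊ + 1)).filter (fun X => C < |(S h X : ℝ)|)).card : ℝ) ≤ δ * h / (512 * (C ^ 2 + 1))}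

theorem result (C δ : ℝ) (hC : 0 ≤ C) (hδ : 0 < δ) (hδ1 : δ ≤ 1) :
    Tendsto (fun Y : ℕ => logCount (fewLarge C δ) Y / Real.log Y) atTop (𝓝 0) := by
  classical
  have h1 : ∀ h X : ℕ, Pool.Agent.V11296.UB.S h X = (S h X : ℝ) := by
    intro h X
    unfold Pool.Agent.V11296.UB.S S Pool.Agent.V11296.UB.lr lam
    push_cast
    rfl
  set H := ⌈8 * C ^ 2⌉₊ + 1 with hH
  have hHr : 8 * C ^ 2 ≤ H := by
    have := Nat.le_ceil (8 * C ^ 2)
    rw [hH]
    push_cast
    linarith
  have hHu : (H : ℝ) ≤ 8 * (C ^ 2 + 1) := by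
    have := Nat.ceil_lt_add_one (by positivity : 0 ≤ 8 * C ^ 2)
    rw [hH]
    push_cast
    linarith
  have hH0 : (0 : ℝ) < H := by
    rw [hH]
    push_cast
    positivity
  have h2 : fewLarge C δ ⊆ Pool.Agent.V11296.UB.Bc C (1 / (64 * H)) δ := by
    intro h hh
    have hh' : (((range (⌊δ * h⌋₊ + 1)).filter (fun X => C < |(S h X : ℝ)|)).card : ℝ) ≤
        δ * h / (512 * (C ^ 2 + 1)) := hh
    have goal : (((range (⌊δ * h⌋₊ + 1)).filter (fun X => C < |Pool.Agent.V11296.UB.S h X|)).card : ℝ) ≤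
        1 / (64 * H) * (δ * h) := by
      simp only [h1]
      refine hh'.trans ?_
      rw [div_eq_mul_one_div, mul_comm]
      apply mul_le_mul_of_nonneg_right _ (by positivity)
      apply one_div_le_one_div_of_le (by positivity)
      linarith
    exact goal
  have h3 := Pool.Agent.V11296.UB.logdens' C hC H (by omega) hHr δ hδ hδ1
  refine squeeze_zero' ?_ ?_ h3
  · filter_upwards with Y
    exact div_nonneg (sum_nonneg fun _ _ => by positivity) (Real.log_natCast_nonneg Y)
  · filter_upwards with Y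
    apply div_le_div_of_nonneg_right _ (Real.log_natCast_nonneg Y)
    unfold logCount
    exact sum_le_sum_of_subset_of_nonneg (monotone_filter_right _ (fun h _ hh => h2 hh)) (fun _ _ _ => by positivity)

end Pool.Agent.Results.MP_27c4f6_nt.UnboundedForAlmostAllShifts
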